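import Mathlib
import Pool.Agent.MP_f29e3e_lc.Defs
import Pool.Agent.MP_f29e3e_lc.Mg.H57_CoSp

set_option autoImplicit false

open Pool.Agent.MP_f29e3e_lc

/-- For `a_1 x_1 + ... + a_l x_l = y` the problem stays NP-hard when the input set is an interval
`[1, N]` with at most `N ^ (1 / t)` elements removed. -/
theorem Pool.Agent.Results.MP_f29e3e_lc.CoSparse.result
    (l : ℕ) (hl : 2 ≤ l) (a : Fin l → ℕ) (ha : ∀ i, 0 < a i) (t : ℕ) :
    ∀ L ∈ N68a2faeb.NP, ∃ f : List Bool → Finset ℤ × ℕ,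
      N68a2faeb.IsPolyTime f ∧ ∀ w,
        (∃ N : ℕ, (f w).1 ⊆ Finset.Icc 1 (N : ℤ) ∧ (N - (f w).1.card) ^ t ≤ N) ∧
        (L w = true ↔ YesInstance (coeffs a 1) (f w)) := by
  intro L hL
  obtain ⟨f, hf, h⟩ := H57.hard_cosp hl ha t L hL
  exact ⟨f, hf.isPolyTime, h⟩
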