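import Mathlib
import Pool.Agent.MP_f29e3e_lc.Defs
import Pool.Agent.MP_f29e3e_lc.Mg.H57_Dense

set_option autoImplicit false

open Pool.Agent.MP_f29e3e_lc

/-- L-Free Subset is NP-complete on dense instances: positive density if the equation is not
translation invariant, Behrend density if it is. -/
theorem Pool.Agent.Results.MP_f29e3e_lc.Dense.result
    (l : ℕ) (hl : 2 ≤ l) (a : Fin l → ℕ) (b : ℕ) (ha : ∀ i, 0 < a i) (hb : 0 < b) :
    freeSubset (coeffs a b) ∈ N68a2faeb.NP ∧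
      ∃ C : ℝ, ∀ L ∈ N68a2faeb.NP, ∃ f : List Bool → Finset ℤ × ℕ,
        N68a2faeb.IsPolyTime f ∧ ∀ w,
          (∀ x ∈ (f w).1, 0 < x ∧ (x : ℝ) ≤ (f w).1.card *
            if ∑ i, a i = b then Real.exp (C * √(Real.log (f w).1.card)) else C) ∧
          (L w = true ↔ YesInstance (coeffs a b) (f w)) := by
  refine ⟨mem_NP _, ?_⟩
  by_cases hs : ∑ i, a i = b
  · obtain ⟨C, hC⟩ := H57.hard_eq hl ha hb hs
    refine ⟨C, fun L hL => ?_⟩
    obtain ⟨f, hf, h⟩ := hC L hL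
    exact ⟨f, hf.isPolyTime, fun w => by simpa only [if_pos hs] using h w⟩
  · obtain ⟨C, hC⟩ := H57.hard_ne hl ha hb hs
    refine ⟨C, fun L hL => ?_⟩
    obtain ⟨f, hf, h⟩ := hC L hL
    refine ⟨f, hf.isPolyTime, fun w => ⟨fun x hx => ⟨((h w).1 x hx).1, ?_⟩, (h w).2⟩⟩
    rw [if_neg hs, mul_comm]
    exact_mod_cast ((h w).1 x hx).2
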