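import Mathlib
import Pool.Agent.MP_f29e3e_lc.Defs
import Pool.Agent.MP_f29e3e_lc.Mg.H57_Dense

set_option autoImplicit false

open Pool.Agent.MP_f29e3e_lc

/-- For a translation invariant equation, a polynomial-time algorithm that is correct on the
instances of positive density `1 / C` gives `NP ⊆ P`. -/
theorem Pool.Agent.Results.MP_f29e3e_lc.DenseAlgorithm.result
    (l : ℕ) (hl : 2 ≤ l) (a : Fin l → ℕ) (ha : ∀ i, 0 < a i) :
    ∃ C : ℕ, ∀ D : Finset ℤ × ℕ → Bool, N68a2faeb.IsPolyTime D →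
      (∀ I : Finset ℤ × ℕ, (∀ x ∈ I.1, 0 < x ∧ x ≤ (C * I.1.card : ℕ)) →
        (D I = true ↔ YesInstance (coeffs a (∑ i, a i)) I)) → N68a2faeb.NP ⊆ N68a2faeb.P := by
  obtain ⟨C, hC⟩ := H57.turing (b := ∑ i, a i) hl ha
    (Finset.sum_pos (fun i _ => ha i) ⟨⟨0, by omega⟩, Finset.mem_univ _⟩)
  exact ⟨C, fun D hD => hC D (Pool.Agent.Lib.Cx.PT.of_isPolyTime hD)⟩
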